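import Mathlib
import Pool.Agent.Work.MP_113634_trap.All

/-!
# Congruence traps for the unitary aliquot map
-/

set_option autoImplicit false

namespace Pool.Agent.Results.MP_113634_nt.CongruenceTraps

/-- the sum of the unitary divisors of `N` -/
def sigmaStar (N : ℕ) : ℕ := ∑ d ∈ N.divisors.filter (fun d => Nat.Coprime d (N / d)), d

/-- `s*(N) = σ*(N) - N` -/
def sStar (N : ℕ) : ℕ := sigmaStar N - N

open Classical in
/-- the number of `n ≤ x` whose residue class modulo `M` is in `U` while the class of `s*(n)` is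
not in `U` -/
noncomputable def leak (M : ℕ) (U : Set (ZMod M)) (x : ℕ) : ℕ :=
  ((Finset.Icc 1 x).filter fun n : ℕ => (n : ZMod M) ∈ U ∧ (sStar n : ZMod M) ∉ U).card

/-- Let `U` be a nonempty set of residue classes modulo `M`.

(1) If `s*(n) ≥ (1/2 + δ) n` for all large `n` in `U`, then at least `c x / log x` of the `n ≤ x`
in `U` are mapped outside `U` by `s*`.

(2) The constant `1/2` is the best one: in the class `6 mod 12` one has `s*(n) > n/2`, and `s*(n)`
is again in this class unless `n = 2 * 3^b`.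

(3) For every `C` there are `M` and `U` with `s*(n) > C n` for all `n` in `U`, such that only
integers with fewer than `T` distinct prime factors are mapped outside `U`, and there are at most
`K x (log log x)^T / log x` of them up to `x`. -/
theorem result :
    (∀ M : ℕ, 0 < M → ∀ U : Set (ZMod M), U.Nonempty → ∀ δ : ℝ, 0 < δ →
      (∃ X : ℕ, ∀ n : ℕ, X ≤ n → (n : ZMod M) ∈ U → (1 / 2 + δ) * (n : ℝ) ≤ sStar n) →
      ∃ c : ℝ, 0 < c ∧ ∃ X : ℕ, ∀ x : ℕ, X ≤ x → c * x / Real.log x ≤ (leak M U x : ℝ)) ∧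
    (∀ n : ℕ, n ≡ 6 [MOD 12] → (n : ℝ) / 2 < sStar n ∧
      (¬ sStar n ≡ 6 [MOD 12] → ∃ b : ℕ, n = 2 * 3 ^ b)) ∧
    (∀ C : ℝ, ∃ M T : ℕ, ∃ U : Set (ZMod M), 0 < M ∧ U.Nonempty ∧
      (∀ n : ℕ, 0 < n → (n : ZMod M) ∈ U → C * n < sStar n ∧
        (T ≤ n.primeFactors.card → (sStar n : ZMod M) ∈ U)) ∧
      ∃ K : ℝ, 0 < K ∧ ∃ X : ℕ, ∀ x : ℕ, X ≤ x →
        (leak M U x : ℝ) ≤ K * x * (Real.log (Real.log x)) ^ T / Real.log x) := by
  refine ⟨?_, ?_, ?_⟩
  · intro M hM U hU δ hδ h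
    have : NeZero M := ⟨hM.ne'⟩
    refine Work.MP_113634_trap.stmt_A M hM {n : ℕ | (n : ZMod M) ∈ U} ?_ ?_ δ hδ h
    · intro m n hmn hm
      have h1 : (m : ZMod M) = n := (ZMod.natCast_eq_natCast_iff _ _ _).2 hmn
      change (n : ZMod M) ∈ U
      rw [← h1]
      exact hm
    · obtain ⟨u, hu⟩ := hU
      refine ⟨u.val, ?_⟩
      change ((u.val : ℕ) : ZMod M) ∈ U
      rwa [ZMod.natCast_zmod_val]
  · intro n hn
    obtain ⟨h1, h2⟩ := Work.MP_113634_trap.stmt_SIX n hn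
    refine ⟨?_, h2⟩
    have h3 : (n : ℝ) < 2 * sStar n := by exact_mod_cast h1
    linarith
  · intro C
    obtain ⟨C', hC'⟩ := exists_nat_ge C
    obtain ⟨M, T, S, K, hM, hper, hne, hK, h1, h2, X, h3⟩ := Work.MP_113634_trap.stmt_C C'
    have : NeZero M := ⟨hM.ne'⟩
    have hmem : ∀ n : ℕ, (n : ZMod M) ∈ {u : ZMod M | u.val ∈ S} ↔ n ∈ S := by
      intro n
      change ((n : ZMod M)).val ∈ S ↔ n ∈ S
      rw [ZMod.val_natCast]
      exact ⟨hper _ _ (Nat.mod_modEq n M), hper _ _ (Nat.mod_modEq n M).symm⟩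
    refine ⟨M, T, {u : ZMod M | u.val ∈ S}, hM, ?_, ?_, K, hK, X, fun x hx => ?_⟩
    · obtain ⟨n, hn⟩ := hne
      exact ⟨(n : ZMod M), (hmem n).2 hn⟩
    · intro n hn hnU
      have hnS := (hmem n).1 hnU
      refine ⟨?_, fun hT => (hmem _).2 (h2 n hnS hn hT)⟩
      have h4 : (C' * n : ℝ) < sStar n := by exact_mod_cast h1 n hnS hn
      have h5 : C * n ≤ C' * n := mul_le_mul_of_nonneg_right hC' (Nat.cast_nonneg n)
      linarith
    · classical
      refine le_trans (Nat.cast_le.2 (Finset.card_le_card fun n hn => ?_)) (h3 x hx)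
      rw [Finset.mem_filter] at hn ⊢
      exact ⟨hn.1, (hmem n).1 hn.2.1, fun h => hn.2.2 ((hmem _).2 h)⟩

end Pool.Agent.Results.MP_113634_nt.CongruenceTraps
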