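import Mathlib
import Pool.Agent.Work.MP_113634_nt.Growth
import Pool.Agent.Work.MP_113634_nt.Linnik

/-!
# Unitary aliquot sequences growing at the maximal rate for `c log log x` steps
-/

set_option autoImplicit false

namespace Pool.Agent.Results.MP_113634_nt.MaximalGrowth

/-- the sum of the unitary divisors of `N` -/
def sigmaStar (N : ℕ) : ℕ := ∑ d ∈ N.divisors.filter (fun d => Nat.Coprime d (N / d)), d

/-- `s*(N) = σ*(N) - N` -/
def sStar (N : ℕ) : ℕ := sigmaStar N - N

/-- the term `a_i` of the unitary aliquot sequence starting at `n` -/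
def term (n i : ℕ) : ℕ := sStar^[i] n

open Classical in
/-- There is an absolute constant `c > 0` such that for every `0 < ε ≤ 1` and all large `x`, at
least `x exp(-(log x)^ε)` of the starting values `n ≤ x` satisfy
`a_{i+1} ≥ c ε (log log x) a_i` for all `i ≤ c ε log log x`. -/
theorem result : ∃ c : ℝ, 0 < c ∧ ∀ ε : ℝ, 0 < ε → ε ≤ 1 → ∃ X : ℕ, ∀ x : ℕ, X ≤ x →
    (x : ℝ) * Real.exp (-(Real.log x) ^ ε)
      ≤ (((Finset.Icc 1 x).filter fun n => ∀ i : ℕ, (i : ℝ) ≤ c * ε * Real.log (Real.log x) →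
          c * ε * Real.log (Real.log x) * (term n i : ℝ) ≤ (term n (i + 1) : ℝ)).card : ℝ) := by
  obtain ⟨L, q0, hL, h⟩ := Work.MP_113634_nt.linnik
  refine Work.MP_113634_nt.growth L q0 hL fun q hq => ?_
  obtain ⟨p, hp, hpq, hpa⟩ := h q hq (-1) isUnit_one.neg
  refine ⟨p, hp, hpq, ?_⟩
  rw [← ZMod.natCast_eq_zero_iff, Nat.cast_add, Nat.cast_one, hpa, neg_add_cancel]

end Pool.Agent.Results.MP_113634_nt.MaximalGrowth
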