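import Mathlib
import Pool.Agent.Work.MP_113634_past.Final

/-!
# The pasts of typical odd numbers in unitary aliquot sequences
-/

set_option autoImplicit false

namespace Pool.Agent.Results.MP_113634_nt.Pasts

/-- the sum of the unitary divisors of `N` -/
def sigmaStar (N : ℕ) : ℕ := ∑ d ∈ N.divisors.filter (fun d => Nat.Coprime d (N / d)), d

/-- `s*(N) = σ*(N) - N` -/
def sStar (N : ℕ) : ℕ := sigmaStar N - N

/-- the term `a_i` of the unitary aliquot sequence starting at `n` -/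
def term (n i : ℕ) : ℕ := sStar^[i] n

open Classical in
/-- For `m ≥ 2` every `n` with `a_k(n) = m` is at most `m ^ (2 ^ k)`, and there are at most `m ^ (2 ^ k - 1)` of
them. There is `δ > 0` such that for every `η > 0` all but at most `C x ^ (1 - δ)` of the odd `m ≤ x` satisfy:
for every `k` at least `m ^ ((1 - η) (2 ^ k - 1))` of the `n ≤ m ^ (2 ^ k)` have `a_k(n) = m`, and there is an
infinite chain `m = u 0 < u 1 < u 2 < ...` with `s*(u (i + 1)) = u i`. -/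
theorem result : (∀ m k : ℕ, 2 ≤ m → (∀ n, term n k = m → n ≤ m ^ 2 ^ k) ∧
      ((Finset.Icc 1 (m ^ 2 ^ k)).filter fun n => term n k = m).card ≤ m ^ (2 ^ k - 1)) ∧
    ∃ δ : ℝ, 0 < δ ∧ ∀ η : ℝ, 0 < η → ∃ C : ℝ, 0 < C ∧ ∀ x : ℕ, 1 ≤ x →
      (((Finset.Icc 1 x).filter fun m : ℕ => Odd m ∧ ¬ ((∀ k : ℕ, (m : ℝ) ^ ((1 - η) * (2 ^ k - 1)) ≤
          (((Finset.Icc 1 (m ^ 2 ^ k)).filter fun n => term n k = m).card : ℝ)) ∧
        ∃ u : ℕ → ℕ, u 0 = m ∧ StrictMono u ∧ ∀ i, sStar (u (i + 1)) = u i)).card : ℝ)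
        ≤ C * (x : ℝ) ^ (1 - δ) :=
  Work.MP_113634_past.pasts

end Pool.Agent.Results.MP_113634_nt.Pasts
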