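import Mathlib
import Pool.Agent.Work.MP_113634_nt.Final

/-!
# The number of unitary aliquot sequences which reach `1` after exactly `k` steps
-/

set_option autoImplicit false

namespace Pool.Agent.Results.MP_113634_nt.TerminationTimes

/-- the sum of the unitary divisors of `N` -/
def sigmaStar (N : ℕ) : ℕ := ∑ d ∈ N.divisors.filter (fun d => Nat.Coprime d (N / d)), d

/-- `s*(N) = σ*(N) - N` -/
def sStar (N : ℕ) : ℕ := sigmaStar N - N

/-- the term `a_i` of the unitary aliquot sequence starting at `n` -/
def term (n i : ℕ) : ℕ := sStar^[i] n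

open Classical in
/-- There is a constant `C` such that for all `k ≥ 1` and all `x` with `log x ≥ C 2^k`, at least
`x / (C log x)^(2k-1)` of the starting values `n ≤ x` reach `1` after exactly `k` steps. -/
theorem result : ∃ C : ℝ, 0 < C ∧ ∀ k : ℕ, 1 ≤ k → ∀ x : ℕ, C * 2 ^ k ≤ Real.log x →
    (x : ℝ) / (C * Real.log x) ^ (2 * k - 1)
      ≤ (((Finset.Icc 1 x).filter fun n => term n k = 1 ∧ ∀ m < k, term n m ≠ 1).card : ℝ) :=
  Work.MP_113634_nt.termination

end Pool.Agent.Results.MP_113634_nt.TerminationTimes
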